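import Pool.Agent.KS6_62.QI.Final

set_option autoImplicit false

namespace Pool.Agent.Results.MP_e17bc1_co.SumsDifferencesExponent

open Pool.Agent.KS6_62.QI

/-- **The upper irredundance number of the queens graph.**

Let `θ = sdExponent` be the infimum, over the finite sets `G` of pairs of integers with at least
two values `x - y`, of `log max(|X|, |Y|, |X + Y|) / log |X - Y|`, where `X`, `Y`, `X + Y`,
`X - Y` are the sets of values of `x`, `y`, `x + y`, `x - y` on `G` (the reciprocal of the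
sums-differences constant of Katz and Tao).

* `IR(Q_n) ≤ 6 n + C n ^ (2 / 3)`, indeed with `C = 0`;
* `6 / 11 ≤ θ < 9 / 16`;
* `IR(Q_n) ≤ 6 n - 2 - n ^ θ` for all `n ≥ 1`, and for every `c < 8 * 2 ^ (θ / 2)`,
  `IR(Q_n) ≤ 6 n - c n ^ θ` for all large `n`;
* for every `ε > 0` there is `C` with `6 n - C n ^ (θ + ε) ≤ IR(Q_n)` for all `n ≥ 1`;
  in particular `6 n - C n ^ (9 / 16) ≤ IR(Q_n)`;
* `log (6 n - IR(Q_n)) / log n` tends to `θ`;
* explicit bounds for all `n`. -/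
theorem result :
    (∃ C : ℝ, ∀ n : ℕ, 1 ≤ n →
      (upperIrredundance (queensGraph n) : ℝ) ≤ 6 * n + C * (n : ℝ) ^ (2 / 3 : ℝ)) ∧
    (6 / 11 ≤ sdExponent ∧ sdExponent < 9 / 16) ∧
    (∀ n : ℕ, 1 ≤ n →
      (upperIrredundance (queensGraph n) : ℝ) ≤ 6 * n - 2 - (n : ℝ) ^ sdExponent) ∧
    (∀ c : ℝ, c < 8 * 2 ^ (sdExponent / 2) → ∀ᶠ n : ℕ in Filter.atTop,
      (upperIrredundance (queensGraph n) : ℝ) ≤ 6 * n - c * (n : ℝ) ^ sdExponent) ∧
    (∀ ε : ℝ, 0 < ε → ∃ C : ℝ, ∀ n : ℕ, 1 ≤ n →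
      6 * (n : ℝ) - C * (n : ℝ) ^ (sdExponent + ε) ≤ upperIrredundance (queensGraph n)) ∧
    (∃ C : ℝ, ∀ n : ℕ, 1 ≤ n →
      6 * (n : ℝ) - C * (n : ℝ) ^ (9 / 16 : ℝ) ≤ upperIrredundance (queensGraph n)) ∧
    Filter.Tendsto (fun n : ℕ =>
      Real.log (6 * n - (upperIrredundance (queensGraph n) : ℝ)) / Real.log n)
      Filter.atTop (nhds sdExponent) ∧
    (∀ n : ℕ, 1 ≤ n →
      6 * (n : ℝ) - 7490 * (n : ℝ) ^ (Real.log 2 / Real.log 3) ≤
        upperIrredundance (queensGraph n) ∧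
      6 * (n : ℝ) - 27000 * (n : ℝ) ^ (Real.log 4 / Real.log 10) ≤
        upperIrredundance (queensGraph n)) ∧
    (∀ n : ℕ, 2 ≤ n → upperIrredundance (queensGraph n) + 6 ≤ 6 * n) ∧
    (∀ n : ℕ, 1000 ≤ n →
      (upperIrredundance (queensGraph n) : ℝ) ≤ 6 * n - 2 - 8 * (n : ℝ) ^ (6 / 11 : ℝ)) ∧
    (∀ n : ℕ, IsGreatest {k | ∃ S : Finset (Fin n × Fin n), S.card = k ∧
      IsIrredundant (queensGraph n) S} (upperIrredundance (queensGraph n))) := by
  refine ⟨⟨0, fun n hn => ?_⟩, ⟨sdExponent_ge, sdExponent_lt⟩, fun n hn => upper_all hn,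
    upper_eventually, fun ε hε => ?_, ?_, tendsto_deficit,
    fun n hn => ⟨lower_ternary hn, lower_decimal n hn⟩, fun n hn => upper_six hn,
    fun n hn => upper_large hn, fun n => ⟨exists_upper _, ?_⟩⟩
  · have h := upper_all hn
    have h2 : (0 : ℝ) ≤ (n : ℝ) ^ sdExponent := by positivity
    linarith
  · obtain ⟨C, -, h⟩ := lower_eps ε hε
    exact ⟨C, h⟩
  · obtain ⟨C, -, h⟩ := lower_nine
    exact ⟨C, h⟩
  · rintro k ⟨S, rfl, hS⟩
    exact le_upper _ S hS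

end Pool.Agent.Results.MP_e17bc1_co.SumsDifferencesExponent
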